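import Pool.Agent.H86.AP.InsP

/-!
# H86-A2-GEN: asymptotic formula and upper bound for AP2 (main term of Malle's conjecture, all classes, stage 2; MP_b39724_nt, think 1616)

`Asy2 c D X l`: the sum `SS` of `X` (all classes with at least `M` primes of norm `> exp ((log Y)^ε)`) divided by `Y (log Y)^(N-1)` has the limit `l`, for all `0 < ε < 1`, `M ≥ 1`.
`Upp2 c D X`: `‖SS‖ ≤ C (nr E)^η Y (log Y)^(N-1)` uniformly in `E`, `e` with `nr E ≤ (log Y)^A₁`, for every `η > 0`.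
-/

set_option autoImplicit false
set_option linter.dupNamespace false

open scoped NumberField ComplexConjugate
open IsDedekindDomain Filter Topology
open scoped Classical

noncomputable section

namespace H86.A2

open H63.MA H38.ML H38.BB H38.BG H57.PC H57.BRA H57.GP H77.PC3 H77.WD Pool.Agent.H19.NF
  Pool.Agent.H19.AB H35.CF H86.AP

variable {K : Type} [Field K] [NumberField K] {p N : ℕ} [NeZero N] {ζ : K} {P : Type} [Group P]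

/-- the asymptotic formula -/
def Asy2 (c : CL p N P) (D : RD0 K p ζ) (X : Finset (Pl K) → (Pl K → P) → ℂ) (l : ℂ) : Prop :=
  ∀ ε : ℝ, 0 < ε → ε < 1 → ∀ M : ℕ, 1 ≤ M → Tendsto (fun Y : ℝ =>
    SS c X D ∅ (fun _ => 1) M (Real.exp (Real.log Y ^ ε)) Y / ((Y * Real.log Y ^ (N - 1) : ℝ) : ℂ))
    atTop (𝓝 l)

/-- the uniform upper bound -/
def Upp2 (c : CL p N P) (D : RD0 K p ζ) (X : Finset (Pl K) → (Pl K → P) → ℂ) : Prop :=
  ∀ (ε η : ℝ) (A₁ : ℕ), 0 < ε → ε < 1 → 0 < η → ∃ C Y₀ : ℝ, 0 ≤ C ∧ ∀ Y : ℝ, Y₀ ≤ Y →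
    ∀ M : ℕ, 1 ≤ M → ∀ (E : Finset (Pl K)) (e : Pl K → P), (∀ v ∈ E, v ∉ D.S0) →
    nr E ≤ Real.log Y ^ A₁ →
    ‖SS c X D E e M (Real.exp (Real.log Y ^ ε)) Y‖ ≤
      C * nr E ^ η * (Y * Real.log Y ^ (N - 1))

/-- smallness gives the limit zero and the upper bound -/
theorem sm_upp0 {c : CL p N P} {D : RD0 K p ζ} {j₀ : Fin N}
    {X : Finset (Pl K) → (Pl K → P) → ℂ} (h : Sm D c j₀ X) (ε : ℝ) (A A₁ : ℕ) (hε : 0 < ε) :
    ∃ Y₀ : ℝ, ∀ Y : ℝ, Y₀ ≤ Y → ∀ M : ℕ, 1 ≤ M →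
    ∀ (E : Finset (Pl K)) (e : Pl K → P), (∀ v ∈ E, v ∉ D.S0) → nr E ≤ Real.log Y ^ A₁ →
    ‖SS c X D E e M (Real.exp (Real.log Y ^ ε)) Y‖ ≤ Y * Real.log Y ^ (-(A : ℝ)) := by
  obtain ⟨Y₀, hY⟩ := h ε A A₁ hε
  refine ⟨Y₀, fun Y hYY M hM E e hE hn => ?_⟩
  obtain ⟨wt, hwt, hi⟩ := ins_p D c j₀ M hM (Real.exp (Real.log Y ^ ε)) Y E e
  rw [hi X]
  exact hY Y hYY E e hE hn wt hwt

private theorem ev_log : ∃ Y₁ : ℝ, ∀ Y : ℝ, Y₁ ≤ Y → 0 < Y ∧ 1 ≤ Real.log Y := by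
  obtain ⟨Y₁, h⟩ := eventually_atTop.1 ((eventually_gt_atTop (0 : ℝ)).and
    (Real.tendsto_log_atTop.eventually_ge_atTop 1))
  exact ⟨Y₁, h⟩

theorem sm_upp2 {c : CL p N P} {D : RD0 K p ζ} {j₀ : Fin N}
    {X : Finset (Pl K) → (Pl K → P) → ℂ} (h : Sm D c j₀ X) : Upp2 c D X := by
  intro ε η A₁ hε _ hη
  obtain ⟨Y₀, hY⟩ := sm_upp0 h ε 0 A₁ hε
  obtain ⟨Y₁, hY₁⟩ := ev_log
  refine ⟨1, max Y₀ Y₁, zero_le_one, fun Y hYY M hM E e hE hn => ?_⟩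
  obtain ⟨g1, g2⟩ := hY₁ Y ((le_max_right _ _).trans hYY)
  have h1 := hY Y ((le_max_left _ _).trans hYY) M hM E e hE hn
  rw [Nat.cast_zero, neg_zero, Real.rpow_zero, mul_one] at h1
  refine h1.trans ?_
  rw [one_mul]
  have h2 : (1 : ℝ) ≤ nr E ^ η := Real.one_le_rpow (one_le_nr E) hη.le
  have h3 : (1 : ℝ) ≤ Real.log Y ^ (N - 1) := one_le_pow₀ g2
  calc Y = 1 * (Y * 1) := by ring
    _ ≤ nr E ^ η * (Y * Real.log Y ^ (N - 1)) :=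
        mul_le_mul h2 (mul_le_mul_of_nonneg_left h3 g1.le) (by positivity) (by positivity)

theorem sm_asy2 {c : CL p N P} {D : RD0 K p ζ} {j₀ : Fin N}
    {X : Finset (Pl K) → (Pl K → P) → ℂ} (h : Sm D c j₀ X) : Asy2 c D X 0 := by
  intro ε hε _ M hM
  obtain ⟨Y₀, hY⟩ := sm_upp0 h ε 1 0 hε
  have h3 : Tendsto (fun Y : ℝ => (Real.log Y)⁻¹) atTop (𝓝 0) :=
    tendsto_inv_atTop_zero.comp Real.tendsto_log_atTop
  refine squeeze_zero_norm' ?_ h3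
  filter_upwards [eventually_ge_atTop Y₀, eventually_gt_atTop (0 : ℝ),
    Real.tendsto_log_atTop.eventually_ge_atTop 1] with Y g1 g2 g3
  have g4 : (0 : ℝ) < Real.log Y := lt_of_lt_of_le zero_lt_one g3
  have g5 := hY Y g1 M hM ∅ (fun _ => 1) (fun v hv => absurd hv (Finset.notMem_empty v)) (by
    rw [nr, Finset.prod_empty, pow_zero])
  rw [Nat.cast_one, Real.rpow_neg_one] at g5
  have g6 : 0 < Y * Real.log Y ^ (N - 1) := mul_pos g2 (pow_pos g4 _)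
  rw [norm_div, Complex.norm_real, Real.norm_of_nonneg g6.le, div_le_iff₀ g6]
  refine g5.trans ?_
  have g8 : 1 ≤ Real.log Y ^ (N - 1) := one_le_pow₀ g3
  have g9 : 0 < Y * (Real.log Y)⁻¹ := mul_pos g2 (inv_pos.2 g4)
  calc Y * (Real.log Y)⁻¹ = Y * (Real.log Y)⁻¹ * 1 := (mul_one _).symm
    _ ≤ Y * (Real.log Y)⁻¹ * Real.log Y ^ (N - 1) := mul_le_mul_of_nonneg_left g8 g9.le
    _ = (Real.log Y)⁻¹ * (Y * Real.log Y ^ (N - 1)) := by ring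

theorem ss_lin2 (c : CL p N P) (D : RD0 K p ζ) (X : Finset (Pl K) → (Pl K → P) → ℂ) {n : ℕ}
    (κ : Fin n → ℂ) (Xs : Fin n → Finset (Pl K) → (Pl K → P) → ℂ) (E : Finset (Pl K))
    (e : Pl K → P) (M : ℕ) (T₀ Y : ℝ) :
    SS c X D E e M T₀ Y = SS c (fun T γ => X T γ - ∑ i, κ i * Xs i T γ) D E e M T₀ Y +
      ∑ i, κ i * SS c (Xs i) D E e M T₀ Y := by
  unfold SS
  beta_reduce
  rw [Finset.sum_sub_distrib, Finset.sum_comm]
  have h : ∀ i, ∑ f ∈ RC D N M T₀ Y E, κ i * Xs i (sp (ZZ D Y \ E) f ∪ E) (gl c E e f) =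
      κ i * ∑ f ∈ RC D N M T₀ Y E, Xs i (sp (ZZ D Y \ E) f ∪ E) (gl c E e f) := fun i =>
    (Finset.mul_sum _ _ _).symm
  rw [Finset.sum_congr rfl fun i _ => h i, sub_add_cancel]

theorem asy2_lin {c : CL p N P} {D : RD0 K p ζ} {X : Finset (Pl K) → (Pl K → P) → ℂ} {n : ℕ}
    {κ : Fin n → ℂ} {Xs : Fin n → Finset (Pl K) → (Pl K → P) → ℂ} {ls : Fin n → ℂ}
    (h0 : Asy2 c D (fun T γ => X T γ - ∑ i, κ i * Xs i T γ) 0)
    (h1 : ∀ i, Asy2 c D (Xs i) (ls i)) : Asy2 c D X (∑ i, κ i * ls i) := by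
  intro ε hε hε1 M hM
  have h2 := (h0 ε hε hε1 M hM).add (tendsto_finsetSum (Finset.univ : Finset (Fin n)) fun i _ =>
    (h1 i ε hε hε1 M hM).const_mul (κ i))
  rw [zero_add] at h2
  refine h2.congr fun Y => ?_
  rw [ss_lin2 c D X κ Xs, add_div, Finset.sum_div]
  congr 1
  exact Finset.sum_congr rfl fun i _ => by rw [mul_div_assoc]

theorem upp2_lin {c : CL p N P} {D : RD0 K p ζ} {X : Finset (Pl K) → (Pl K → P) → ℂ} {n : ℕ}
    {κ : Fin n → ℂ} {Xs : Fin n → Finset (Pl K) → (Pl K → P) → ℂ}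
    (h0 : Upp2 c D (fun T γ => X T γ - ∑ i, κ i * Xs i T γ))
    (h1 : ∀ i, Upp2 c D (Xs i)) : Upp2 c D X := by
  intro ε η A₁ hε hε1 hη
  obtain ⟨C₁, Y₁, hC₁, hY₁⟩ := h0 ε η A₁ hε hε1 hη
  choose Cs Ys hCs hYs using fun i => h1 i ε η A₁ hε hε1 hη
  refine ⟨C₁ + ∑ i, ‖κ i‖ * Cs i, max Y₁ (∑ i, |Ys i|), ?_, fun Y hY M hM E e hE hn => ?_⟩
  · exact add_nonneg hC₁ (Finset.sum_nonneg fun i _ => mul_nonneg (norm_nonneg _) (hCs i))
  have g1 : Y₁ ≤ Y := le_trans (le_max_left _ _) hY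
  have g3 : ∀ i, Ys i ≤ Y := fun i => le_trans (le_abs_self _) (le_trans
    (Finset.single_le_sum (f := fun i => |Ys i|) (fun j _ => abs_nonneg _) (Finset.mem_univ i))
    (le_trans (le_max_right _ _) hY))
  set T₀ := Real.exp (Real.log Y ^ ε) with hT₀
  set w : ℝ := Y * Real.log Y ^ (N - 1) with hw
  have k0 := hY₁ Y g1 M hM E e hE hn
  have k1 : ∀ i, ‖SS c (Xs i) D E e M T₀ Y‖ ≤ Cs i * nr E ^ η * w := fun i =>
    hYs i Y (g3 i) M hM E e hE hn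
  rw [ss_lin2 c D X κ Xs]
  calc _ ≤ ‖SS c (fun T γ => X T γ - ∑ i, κ i * Xs i T γ) D E e M T₀ Y‖ +
        ∑ i, ‖κ i * SS c (Xs i) D E e M T₀ Y‖ :=
        (norm_add_le _ _).trans (add_le_add le_rfl (norm_sum_le _ _))
    _ ≤ C₁ * nr E ^ η * w + ∑ i, ‖κ i‖ * (Cs i * nr E ^ η * w) := by
        refine add_le_add k0 (Finset.sum_le_sum fun i _ => ?_)
        rw [norm_mul]
        exact mul_le_mul_of_nonneg_left (k1 i) (norm_nonneg _)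
    _ = (C₁ + ∑ i, ‖κ i‖ * Cs i) * nr E ^ η * w := by
        rw [add_mul, add_mul, Finset.sum_mul, Finset.sum_mul]
        congr 1
        exact Finset.sum_congr rfl fun i _ => by ring

end H86.A2
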