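import Pool.Agent.H19.A2.Df2
import Pool.Agent.H51.PF.Tyt
import Pool.Agent.H86.A2.Gen

/-!
# H86-A2-SYF: the homomorphisms which are counted (AP2, main term of Malle's conjecture, all classes, stage 2; MP_b39724_nt, think 1616)

`Ps`: the hypotheses of the positivity. `SYF L Q c T φ₁ E e M T₀ Y`: finite type, of the type of `φ₁` at `S0` up to conjugation by `T`, `φ t_v` conjugate to `e v` at `E`; outside `S0 ∪ E` unramified or `v` good and `φ t_v` conjugate to some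
`c.g j`; product of the norms of the ramified primes outside `S0 ∪ E` at most `Y`; for every `j` at least `M` primes of norm `> T₀` outside `E` with `φ t_v` conjugate to `c.g j`.
-/

set_option autoImplicit false
set_option linter.dupNamespace false

open scoped NumberField ComplexConjugate
open IsDedekindDomain Filter Topology
open scoped Classical

noncomputable section

namespace H86.A2

open H63.MA H38.ML H38.BB H38.BG H57.PC H57.BRA H57.GP H77.PC3 H77.WD Pool.Agent.H19.NF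
  Pool.Agent.H19.AB H35.CF H86.AP H51.PF

variable {K : Type} [Field K] [NumberField K] {Ω : Type} [Field Ω] [Algebra K Ω]
  {p N : ℕ} {ζ : K}

/-- the homomorphisms which are counted -/
def SYF {D : RD0 K p ζ} (L : LDs D Ω) (Q : DP K Ω) {P : Type} [Group P] (c : CL p N P)
    (T : Subgroup P) (φ₁ : Gal(Ω/K) →* P) (E : Finset (Pl K)) (e : Pl K → P) (M : ℕ) (T₀ Y : ℝ) :
    Set (Gal(Ω/K) →* P) :=
  {φ | H38.ML.FT φ ∧ TqT D.S0 Q T φ φ₁ ∧ (∀ v ∈ E, IsConj (φ (L.t v)) (e v)) ∧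
    (∀ v, v ∉ D.S0 → v ∉ E → φ (L.t v) ≠ 1 → D.Gd v ∧ ∃ j, IsConj (φ (L.t v)) (c.g j)) ∧
    (∀ X : Finset (Pl K), (∀ v ∈ X, v ∉ D.S0 ∧ v ∉ E ∧ φ (L.t v) ≠ 1) → nr X ≤ Y) ∧
    ∀ j, ∃ X : Finset (Pl K), M ≤ X.card ∧
      ∀ v ∈ X, D.Gd v ∧ v ∉ E ∧ T₀ < (nm v : ℝ) ∧ IsConj (φ (L.t v)) (c.g j)}

/-- the hypotheses of the positivity -/
def Ps {D : RD0 K p ζ} (L : LDs D Ω) {P Qg : Type} [Group P] [Group Qg] (rP : P →* Qg)
    (wt : (Gal(Ω/K) →* Qg) → ℂ) (φ₁ : Gal(Ω/K) →* P) : Prop :=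
  Function.Surjective φ₁ ∧ (∀ v, v ∉ D.S0 → φ₁ (L.t v) = 1) ∧
    wt = fun ψ => if ψ = rP.comp φ₁ then 1 else 0

end H86.A2
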