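import Pool.Agent.H86.A2.Ind2
import Pool.Agent.H86.A2.Lo
import Pool.Agent.H51.AC2.Fin
import Pool.Agent.H24.RK.Fnr
import Pool.Agent.H82.SF.Ff
import Pool.Agent.H93.GQ.Fin
import Pool.Agent.H77.PC3.CFr
import Pool.Agent.H55.E2.St2

/-!
# H86-A2-FIN2: the P-level statements of AP2 (`APst2` of H51/AC2/Defs) from the induction

* `BX p`: the black boxes (gap principle, functional, (F), weights of the reciprocity law). `bx_odd`: they hold for odd `p`.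
* `apst2_of`: `BX p` implies `APst2 p`. `apst2`: `APst2 p` for odd `p`.
-/

set_option autoImplicit false
set_option linter.dupNamespace false

open scoped NumberField ComplexConjugate
open IsDedekindDomain Filter Topology
open scoped Classical

noncomputable section

namespace H86.A2

open H63.MA H38.ML H38.BB H38.BG H57.PC H57.BRA H57.GP H77.PC3 H77.WD H77.S0T H77.FLD H77.PLF
  Pool.Agent.H19.NF Pool.Agent.H19.AB H35.CF H35.UB H35.AC H86.AP H51.PF H51.AC2 H24.RK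
  Pool.Agent.H19.A2

section set

variable {p N : ℕ} {K : IntermediateField ℚ QBar} [NumberField K] {ζ : K} {D : RD0 K p ζ}
  {P : Type} [Group P]

private theorem t_inr (L : LDs D QBar) {v : Pl K} (hv : v ∉ D.S0) : L.t v ∈ inr L v := by
  unfold inr LDs.t
  rw [dif_pos hv, dif_pos hv]
  exact (L.ld v hv).ht

private theorem unr_iff [Finite P] (hp : p.Prime) (hζ : IsPrimitiveRoot ζ p) (L : LDs D QBar)
    (hP : IsPGroup p P) (φ : Gal(QBar/K) →* P) (hφ : FT φ) {v : Pl K} (hv : v ∉ D.S0) :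
    (∀ τ ∈ inr L v, φ τ = 1) ↔ φ (L.t v) = 1 :=
  ⟨fun h => h _ (t_inr L hv), (H48.MF.ing_inr hp hζ L hv φ hφ fun τ _ => hP (φ τ)).2.2⟩

private theorem tyc_iff [Finite P] (hp : p.Prime) (hζ : IsPrimitiveRoot ζ p) (L : LDs D QBar)
    (hP : IsPGroup p P) (c : CL p N P) (φ : Gal(QBar/K) →* P) (hφ : FT φ) (i : Fin N) (v : Pl K) :
    TyC c L φ i v ↔ D.Gd v ∧ IsConj (φ (L.t v)) (c.g i) := by
  constructor
  · exact fun h => ⟨h.1, h.2.1⟩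
  · rintro ⟨h1, h2⟩
    refine ⟨h1, h2, (H48.MF.ing_inr hp hζ L h1.1 φ hφ fun τ _ => hP (φ τ)).2.1 ?_⟩
    obtain ⟨g, hg⟩ := isConj_iff.1 h2.symm
    rw [← hg, conj_pow, c.pow i, mul_one, mul_inv_cancel]

/-- the number of large typed primes -/
private theorem tyn_iff [Finite P] (hp : p.Prime) (hζ : IsPrimitiveRoot ζ p) (L : LDs D QBar)
    (hP : IsPGroup p P) (c : CL p N P) (φ : Gal(QBar/K) →* P) (hφ : FT φ) (E : Finset (Pl K))
    (T : ℝ) (i : Fin N) (M : ℕ) : M ≤ tyn L c E T φ i ↔ ∃ s : Finset (Pl K), M ≤ s.card ∧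
      ∀ v ∈ s, D.Gd v ∧ v ∉ E ∧ T < (nm v : ℝ) ∧ IsConj (φ (L.t v)) (c.g i) := by
  have hfin : {v : Pl K | v ∉ E ∧ T < (nm v : ℝ) ∧ TyC c L φ i v}.Finite := by
    refine (ram_finite hp D L φ hφ).subset ?_
    rintro v ⟨-, -, h1, h2, -⟩
    refine ⟨h1.1, fun h3 => c.ne i ?_⟩
    rw [h3] at h2
    exact (isConj_one_right.1 h2)
  have hmem : ∀ v, v ∈ {v : Pl K | v ∉ E ∧ T < (nm v : ℝ) ∧ TyC c L φ i v} ↔
      (D.Gd v ∧ v ∉ E ∧ T < (nm v : ℝ) ∧ IsConj (φ (L.t v)) (c.g i)) := by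
    intro v
    constructor
    · rintro ⟨h1, h2, h3, h4, -⟩
      exact ⟨h3, h1, h2, h4⟩
    · rintro ⟨h1, h2, h3, h4⟩
      exact ⟨h2, h3, (tyc_iff hp hζ L hP c φ hφ i v).2 ⟨h1, h4⟩⟩
  unfold tyn
  rw [Set.ncard_eq_toFinset_card _ hfin]
  constructor
  · intro h
    exact ⟨hfin.toFinset, h, fun v hv => (hmem v).1 (hfin.mem_toFinset.1 hv)⟩
  · rintro ⟨s, h1, h2⟩
    exact h1.trans (Finset.card_le_card fun v hv => hfin.mem_toFinset.2 ((hmem v).2 (h2 v hv)))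

/-- the rich homomorphisms with prescribed classes at `E` -/
private theorem pu_syf [Finite P] (hp : p.Prime) (hζ : IsPrimitiveRoot ζ p) (L : LDs D QBar)
    (Q : DP K QBar) (hP : IsPGroup p P) (c : CL p N P) (T : Subgroup P)
    (E : Finset (Pl K)) (M : ℕ) (ε Y : ℝ) (φ φ₁ : Gal(QBar/K) →* P)
    (h : φ ∈ PU L c E Y ∧ Rch L c E M ε Y φ) (hT : TqT D.S0 Q T φ φ₁) (e : Pl K → P)
    (he : ∀ v ∈ E, IsConj (φ (L.t v)) (e v)) :
    φ ∈ SYF L Q c T φ₁ E e M (Real.exp (Real.log Y ^ ε)) Y := by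
  obtain ⟨⟨h1, h2, h3, h4⟩, h5⟩ := h
  refine ⟨h1, hT, he, fun v hv hvE hv1 => ?_, fun X hX => ?_, fun j => ?_⟩
  · rcases h3 v hv hvE with h6 | ⟨i, h6⟩
    · exact absurd (h6 _ (t_inr L hv)) hv1
    · exact ⟨h6.1, i, h6.2.1⟩
  · exact h4 X fun v hv => ⟨(hX v hv).1, (hX v hv).2.1, fun h6 =>
      (hX v hv).2.2 (h6 _ (t_inr L (hX v hv).1))⟩
  · exact (tyn_iff hp hζ L hP c φ h1 E _ j M).1 (h5 j)

/-- onto -/
private theorem syf_onto [Finite P] (hp : p.Prime) (L : LDs D QBar) (Q : DP K QBar)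
    (hP : IsPGroup p P) (c : CL p N P) {Qg : Type} [Group Qg] (rP : P →* Qg)
    (hgen : ∀ S : Subgroup P, S.Normal → (∀ i, c.g i ∈ S) → rP.ker ≤ S)
    {E : Finset (Pl K)} {e : Pl K → P} {M : ℕ} (hM : 1 ≤ M) {T₀ Y : ℝ}
    {φ φ₁ : Gal(QBar/K) →* P} (h : φ ∈ SYF L Q c rP.ker φ₁ E e M T₀ Y)
    (hs : Function.Surjective (rP.comp φ)) : Function.Surjective φ := by
  rw [← MonoidHom.range_eq_top]
  by_contra hR
  obtain ⟨f, hf, hfR⟩ := pg_char hp hP φ.range hR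
  apply hf
  have hg : ∀ i, c.g i ∈ f.ker := by
    intro i
    obtain ⟨X, h1, h2⟩ := h.2.2.2.2.2 i
    obtain ⟨v, hv⟩ : X.Nonempty := Finset.card_pos.1 (by omega)
    obtain ⟨g, hg⟩ := isConj_iff.1 (h2 v hv).2.2.2
    rw [MonoidHom.mem_ker, ← hg, map_mul, map_mul, map_inv, hfR _ ⟨_, rfl⟩, mul_one,
      mul_inv_cancel]
  have hk := hgen f.ker inferInstance hg
  ext x
  obtain ⟨σ, hσ⟩ := hs (rP x)
  have h1 : x * (φ σ)⁻¹ ∈ rP.ker := by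
    rw [MonoidHom.mem_ker, map_mul, map_inv]
    have h2 : rP (φ σ) = rP x := hσ
    rw [h2, mul_inv_cancel]
  have h2 : f (x * (φ σ)⁻¹) = 1 := hk h1
  rw [map_mul, map_inv, hfR (φ σ) ⟨σ, rfl⟩, inv_one, mul_one] at h2
  rw [h2]
  rfl

private theorem syf_syt [Finite P] (hp : p.Prime) (hζ : IsPrimitiveRoot ζ p) (L : LDs D QBar)
    (Q : DP K QBar) (hP : IsPGroup p P) (c : CL p N P) {Qg : Type} [Group Qg] (rP : P →* Qg)
    (hr : Function.Surjective rP)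
    (hgen : ∀ S : Subgroup P, S.Normal → (∀ i, c.g i ∈ S) → rP.ker ≤ S) {M : ℕ} (hM : 1 ≤ M)
    (ε Y : ℝ) (φ₁ : Gal(QBar/K) →* P) :
    {φ | φ ∈ SYT L Q c rP.ker φ₁ Y ∧ Rch L c ∅ M ε Y φ} =
      {φ | φ ∈ SYF L Q c rP.ker φ₁ ∅ (fun _ => 1) M (Real.exp (Real.log Y ^ ε)) Y ∧
        Function.Surjective (rP.comp φ)} := by
  ext φ
  constructor
  · rintro ⟨⟨h1, h2, h3, h4, h5⟩, h6⟩
    refine ⟨pu_syf hp hζ L Q hP c rP.ker ∅ M ε Y φ φ₁ ⟨⟨h1, h2, fun v hv _ => h4 v hv,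
      fun X hX => h5 X fun v hv => ⟨(hX v hv).1, (hX v hv).2.2⟩⟩, h6⟩ h3 _ fun v hv =>
        absurd hv (Finset.notMem_empty v), hr.comp h2⟩
  · rintro ⟨hφ, hs⟩
    have hsurj := syf_onto hp L Q hP c rP hgen hM hφ hs
    obtain ⟨h1, h2, -, h4, h5, h6⟩ := hφ
    refine ⟨⟨h1, hsurj, h2, fun v hv => ?_, fun X hX => ?_⟩, fun j =>
      (tyn_iff hp hζ L hP c φ h1 ∅ _ j M).2 (h6 j)⟩
    · by_cases hv1 : φ (L.t v) = 1
      · exact Or.inl ((unr_iff hp hζ L hP φ h1 hv).2 hv1)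
      · obtain ⟨hg, j, hj⟩ := h4 v hv (Finset.notMem_empty v) hv1
        exact Or.inr ⟨j, (tyc_iff hp hζ L hP c φ h1 j v).2 ⟨hg, hj⟩⟩
    · exact h5 X fun v hv => ⟨(hX v hv).1, Finset.notMem_empty v, fun h7 =>
        (hX v hv).2 ((unr_iff hp hζ L hP φ h1 (hX v hv).1).2 h7)⟩

end set

section bx

/-- the black boxes of AP2 -/
def BX (p : ℕ) : Prop :=
  ∀ k m : ℕ, 1 ≤ k → 1 ≤ m → ∃ n₀ : ℕ, ∀ (n : ℕ), n₀ ≤ n → ∀ (K : IntermediateField ℚ QBar)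
    [NumberField K] (ζ : K) (_ : IsPrimitiveRoot ζ p) (z : K)
    (_ : IsPrimitiveRoot z (p ^ (n + 1))) (_ : z ^ p ^ n = ζ) (D : RD K p ζ) [NeZero (p ^ m)],
    GPR D.toRD0 QBar (p ^ k) ∧ ∀ (L : LDs D.toRD0 QBar) (_ : NL (n + 1) z L) (Q : DP K QBar)
      (Fr : FR L), (∀ v, v ∉ D.S0 → D.lam v = 1) ∧
      ∃ I, FnR p k m D.toRD0 L Q Fr I ∧ FF p k m D.toRD0 L Q Fr I

theorem bx_odd {p : ℕ} (hp : p.Prime) (hp2 : p ≠ 2) : BX p := by
  intro k m hk hm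
  refine ⟨max k m + m, fun n hn K _ ζ hζ z hz hzζ D _ => ?_⟩
  have h1 : k ≤ n := (le_max_left k m).trans (by omega)
  have h2 : m ≤ n := (le_max_right k m).trans (by omega)
  have hz' : Zn p (n + 1) K := ⟨z, hz⟩
  obtain ⟨z1, hz1⟩ := hz'.mono hp.pos (show k ≤ n + 1 by omega)
  refine ⟨H57.GP.Q.gprq hp hp2 hk hζ hz1 D.toRD0, fun L hL Q Fr => ?_⟩
  obtain ⟨I, hI⟩ := exists_fnr hp hp2 (mone_odd hp hp2 K) hζ hz hzζ hL Q Fr
    (show max k m + m ≤ n + 1 by omega)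
  refine ⟨lam_all hp hp2 hζ (hz'.mono hp.pos (by omega)) D L Q Fr, I, hI,
    H82.SF.ff hk hm hp hp2 hζ (hz'.mono hp.pos (by omega)) Q Fr hI⟩

end bx

section got

variable {p N : ℕ} [NeZero N] {K : IntermediateField ℚ QBar} [NumberField K] {ζ : K}

/-- the result of the induction and of the beginning, for all weights and types -/
def Got {D : RD0 K p ζ} (L : LDs D QBar) (Q : DP K QBar) {P : Type} [Group P] (c : CL p N P)
    {Qg : Type} [Group Qg] (rP : P →* Qg) : Prop :=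
  ∀ (φ₁ : Gal(QBar/K) →* P), FT φ₁ → ∀ (wt : (Gal(QBar/K) →* Qg) → ℂ), (∀ ψ, ‖wt ψ‖ ≤ 1) →
    (∀ ψ, wt ψ ≠ 0 → Function.Surjective ψ) →
    ∃ (lim : ℂ) (κ : ℕ) (X : Finset (Pl K) → (Pl K → P) → ℂ), 0 < κ ∧ Asy2 c D X lim ∧
      Upp2 c D X ∧ (Ps L rP wt φ₁ → ∃ s : ℝ, lim = s ∧ 0 < s) ∧
      ∀ (E : Finset (Pl K)) (e : Pl K → P), (∀ v ∈ E, v ∉ D.S0) → ∀ (M : ℕ) (T₀ Y : ℝ),
      ∃ hf : (SYF L Q c rP.ker φ₁ E e M T₀ Y).Finite,
        SS c X D E e M T₀ Y = (κ : ℂ) * ∑ φ ∈ hf.toFinset, wt (rP.comp φ)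

/-- the weight `1` on the surjective homomorphisms -/
def w1 {Γ Qg : Type} [Group Γ] [Group Qg] (ψ : Γ →* Qg) : ℂ :=
  if Function.Surjective ψ then 1 else 0

private theorem w1_le {Γ Qg : Type} [Group Γ] [Group Qg] (ψ : Γ →* Qg) : ‖w1 ψ‖ ≤ 1 := by
  unfold w1
  split_ifs
  · rw [norm_one]
  · rw [norm_zero]
    exact zero_le_one

private theorem w1_ne {Γ Qg : Type} [Group Γ] [Group Qg] (ψ : Γ →* Qg) (h : w1 ψ ≠ 0) :
    Function.Surjective ψ := by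
  by_contra hs
  exact h (if_neg hs)

omit [NeZero N] in
private theorem w1_sum {D : RD0 K p ζ} (L : LDs D QBar) (Q : DP K QBar) {P : Type} [Group P]
    (c : CL p N P) {Qg : Type} [Group Qg] (rP : P →* Qg) {φ₁ : Gal(QBar/K) →* P}
    {E : Finset (Pl K)} {e : Pl K → P} {M : ℕ} {T₀ Y : ℝ}
    (hf : (SYF L Q c rP.ker φ₁ E e M T₀ Y).Finite) :
    ∑ φ ∈ hf.toFinset, w1 (rP.comp φ) =
      ({φ | φ ∈ SYF L Q c rP.ker φ₁ E e M T₀ Y ∧ Function.Surjective (rP.comp φ)}.ncard : ℂ) := by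
  have h1 : {φ | φ ∈ SYF L Q c rP.ker φ₁ E e M T₀ Y ∧ Function.Surjective (rP.comp φ)} =
      (hf.toFinset.filter fun φ => Function.Surjective (rP.comp φ) : Finset _) := by
    ext φ
    simp
  rw [h1, Set.ncard_coe_finset]
  unfold w1
  rw [Finset.sum_ite, Finset.sum_const_zero, add_zero, Finset.sum_const, nsmul_eq_mul, mul_one]

/-- the limit -/
theorem got_l {P : Type} [Group P] [Finite P] (hp : p.Prime) (hζ : IsPrimitiveRoot ζ p)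
    (hP : IsPGroup p P) (D : RD0 K p ζ) (L : LDs D QBar) (Q : DP K QBar) (c : CL p N P)
    {Qg : Type} [Group Qg] (rP : P →* Qg) (hr : Function.Surjective rP)
    (hgen : ∀ S : Subgroup P, S.Normal → (∀ i, c.g i ∈ S) → rP.ker ≤ S) (hG : Got L Q c rP)
    {ε : ℝ} (hε : 0 < ε) (hε1 : ε < 1) (φ₁ : Gal(QBar/K) →* P) (h₁ : FT φ₁) :
    ∃ l : ℝ, Tendsto (fun Y : ℝ => ({φ | φ ∈ SYT L Q c rP.ker φ₁ Y ∧
      Rch L c ∅ 1 ε Y φ}.ncard : ℝ) / (Y * Real.log Y ^ (N - 1))) atTop (𝓝 l) := by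
  obtain ⟨lim, κ, X, hκ, hA, -, -, hS⟩ := hG φ₁ h₁ w1 w1_le w1_ne
  have hκ0 : (κ : ℂ) ≠ 0 := Nat.cast_ne_zero.2 hκ.ne'
  have h1 := (Complex.continuous_re.tendsto _).comp ((hA ε hε hε1 1 le_rfl).const_mul (κ : ℂ)⁻¹)
  refine ⟨_, h1.congr fun Y => ?_⟩
  obtain ⟨hf, h2⟩ := hS ∅ (fun _ => 1) (fun v hv => absurd hv (Finset.notMem_empty v)) 1
    (Real.exp (Real.log Y ^ ε)) Y
  rw [Function.comp_apply, h2, w1_sum, ← syf_syt hp hζ L Q hP c rP hr hgen le_rfl ε Y φ₁,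
    mul_div_assoc, inv_mul_cancel_left₀ hκ0, ← Complex.ofReal_natCast, ← Complex.ofReal_div,
    Complex.ofReal_re]

/-- positivity -/
theorem got_p {P : Type} [Group P] [Finite P] (hp : p.Prime) (hζ : IsPrimitiveRoot ζ p)
    (hP : IsPGroup p P) (D : RD0 K p ζ) (L : LDs D QBar) (Q : DP K QBar) (c : CL p N P)
    {Qg : Type} [Group Qg] (rP : P →* Qg) (hr : Function.Surjective rP)
    (hgen : ∀ S : Subgroup P, S.Normal → (∀ i, c.g i ∈ S) → rP.ker ≤ S) (hG : Got L Q c rP)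
    {ε : ℝ} (hε : 0 < ε) (hε1 : ε < 1) (φ₁ : Gal(QBar/K) →* P) (h₁ : FT φ₁)
    (hs : Function.Surjective φ₁) (hu : ∀ v, v ∉ D.S0 → ∀ τ ∈ inr L v, φ₁ τ = 1) :
    ∃ c₀ : ℝ, 0 < c₀ ∧ ∀ᶠ Y : ℝ in atTop, c₀ * (Y * Real.log Y ^ (N - 1)) ≤
      ({φ | φ ∈ SYT L Q c rP.ker φ₁ Y ∧ Rch L c ∅ 1 ε Y φ}.ncard : ℝ) := by
  obtain ⟨lim, κ, X, hκ, hA, -, hpos, hS⟩ := hG φ₁ h₁
    (fun ψ => if ψ = rP.comp φ₁ then 1 else 0) (fun ψ => by
      split_ifs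
      · rw [norm_one]
      · rw [norm_zero]
        exact zero_le_one) (fun ψ hψ => by
      by_cases h : ψ = rP.comp φ₁
      · rw [h]
        exact hr.comp hs
      · exact absurd (if_neg h) hψ)
  obtain ⟨s, rfl, hs0⟩ := hpos ⟨hs, fun v hv => hu v hv _ (t_inr L hv), rfl⟩
  have hκ0 : (0 : ℝ) < κ := Nat.cast_pos.2 hκ
  have h1 := (Complex.continuous_re.tendsto _).comp (hA ε hε hε1 1 le_rfl)
  rw [Complex.ofReal_re] at h1
  refine ⟨s / 2 / κ, by positivity, ?_⟩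
  filter_upwards [h1.eventually_const_le (half_lt_self hs0), eventually_gt_atTop (0 : ℝ),
    Real.tendsto_log_atTop.eventually_ge_atTop 1] with Y g1 g2 g3
  have g4 : 0 < Y * Real.log Y ^ (N - 1) :=
    mul_pos g2 (pow_pos (lt_of_lt_of_le zero_lt_one g3) _)
  obtain ⟨hf, h2⟩ := hS ∅ (fun _ => 1) (fun v hv => absurd hv (Finset.notMem_empty v)) 1
    (Real.exp (Real.log Y ^ ε)) Y
  have h3 : {φ | φ ∈ SYF L Q c rP.ker φ₁ ∅ (fun _ => 1) 1 (Real.exp (Real.log Y ^ ε)) Y ∧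
      Function.Surjective (rP.comp φ)}.Finite := hf.subset fun φ hφ => hφ.1
  rw [syf_syt hp hζ L Q hP c rP hr hgen le_rfl ε Y φ₁]
  set n : ℕ := {φ | φ ∈ SYF L Q c rP.ker φ₁ ∅ (fun _ => 1) 1 (Real.exp (Real.log Y ^ ε)) Y ∧
      Function.Surjective (rP.comp φ)}.ncard with hn
  set n' : ℕ := (hf.toFinset.filter fun φ => rP.comp φ = rP.comp φ₁).card with hn'
  have h4 : ∑ φ ∈ hf.toFinset, (if rP.comp φ = rP.comp φ₁ then (1 : ℂ) else 0) = n' := by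
    rw [Finset.sum_ite, Finset.sum_const_zero, add_zero, Finset.sum_const, nsmul_eq_mul, mul_one]
  have h5 : n' ≤ n := by
    rw [hn, Set.ncard_eq_toFinset_card _ h3, hn']
    refine Finset.card_le_card fun φ hφ => ?_
    rw [Finset.mem_filter, hf.mem_toFinset] at hφ
    rw [h3.mem_toFinset]
    exact ⟨hφ.1, by rw [hφ.2]; exact hr.comp hs⟩
  rw [Function.comp_apply, h2, h4, ← Complex.ofReal_natCast, ← Complex.ofReal_natCast,
    ← Complex.ofReal_mul, ← Complex.ofReal_div, Complex.ofReal_re, le_div_iff₀ g4] at g1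
  have h6 : (n' : ℝ) ≤ n := by exact_mod_cast h5
  rw [div_mul_eq_mul_div, div_le_iff₀ hκ0, mul_comm (n : ℝ)]
  exact g1.trans (mul_le_mul_of_nonneg_left h6 hκ0.le)

/-- the upper bound -/
theorem got_u {P : Type} [Group P] [Finite P] (hp : p.Prime) (hM1 : MOne p K)
    (hζ : IsPrimitiveRoot ζ p) (hP : IsPGroup p P) (D : RD0 K p ζ) (L : LDs D QBar)
    (Q : DP K QBar) (c : CL p N P) {Qg : Type} [Group Qg] (rP : P →* Qg)
    (hr : Function.Surjective rP) (hG : Got L Q c rP) {A₁ ε η : ℝ} (hε : 0 < ε) (hε1 : ε < 1)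
    (hη : 0 < η) :
    ∃ C Y₀ : ℝ, 1 ≤ C ∧ 3 ≤ Y₀ ∧ ∀ (E : Finset (Pl K)) (Y : ℝ), Y₀ ≤ Y →
      nr E ≤ Real.log Y ^ A₁ → (∀ v ∈ E, v ∉ D.S0) →
      {φ | φ ∈ PU L c E Y ∧ Rch L c E 1 ε Y φ}.Finite ∧
      ({φ | φ ∈ PU L c E Y ∧ Rch L c E 1 ε Y φ}.ncard : ℝ) ≤
        C ^ (E.card + 1) * nr E ^ η * Y * Real.log Y ^ (N - 1) := by
  have : Fintype P := Fintype.ofFinite P
  obtain ⟨R, hR, hR2⟩ := ty_fin hp hM1 hζ D L Q _ P rfl hP
  have h1 := fun φ₁ : R => hG φ₁.1 (hR _ φ₁.2) w1 w1_le w1_ne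
  choose lim κ X hκ _ hX _ hS using h1
  choose Cs Ys hCs hYs using fun φ₁ => hX φ₁ ε η ⌈A₁⌉₊ hε hε1 hη
  obtain ⟨Y₁, hY₁⟩ := eventually_atTop.1
    ((Real.tendsto_log_atTop.eventually_ge_atTop 1).and (eventually_gt_atTop (0 : ℝ)))
  set C₁ : ℝ := ∑ φ₁ : R, Cs φ₁ with hC₁
  have hC₁0 : 0 ≤ C₁ := Finset.sum_nonneg fun φ₁ _ => hCs φ₁
  set C : ℝ := max (max C₁ (Nat.card P)) 1 with hC
  refine ⟨C, max (max 3 Y₁) (∑ φ₁ : R, |Ys φ₁|), le_max_right _ _,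
    le_trans (le_max_left _ _) (le_max_left _ _), fun E Y hY hn hE => ?_⟩
  have g1 : Y₁ ≤ Y := le_trans (le_trans (le_max_right _ _) (le_max_left _ _)) hY
  have g2 : ∀ φ₁, Ys φ₁ ≤ Y := fun φ₁ => le_trans (le_abs_self _) (le_trans
    (Finset.single_le_sum (f := fun i => |Ys i|) (fun j _ => abs_nonneg _) (Finset.mem_univ φ₁))
    (le_trans (le_max_right _ _) hY))
  obtain ⟨g4, g5⟩ := hY₁ Y g1
  have g6 : 0 < Real.log Y := lt_of_lt_of_le zero_lt_one g4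
  set W : ℝ := nr E ^ η * (Y * Real.log Y ^ (N - 1)) with hW
  have g7 : 0 < W := mul_pos (Real.rpow_pos_of_pos (lt_of_lt_of_le one_pos (one_le_nr E)) _)
    (mul_pos g5 (pow_pos g6 _))
  have hn' : nr E ≤ Real.log Y ^ ⌈A₁⌉₊ := by
    refine hn.trans ?_
    rw [← Real.rpow_natCast]
    exact Real.rpow_le_rpow_of_exponent_le g4 (Nat.le_ceil A₁)
  set T₀ := Real.exp (Real.log Y ^ ε) with hT₀
  set ex : (E → P) → Pl K → P := fun e v => if h : v ∈ E then e ⟨v, h⟩ else 1 with hex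
  set V : R → (E → P) → Set (Gal(QBar/K) →* P) := fun φ₁ e =>
    {φ | φ ∈ SYF L Q c rP.ker φ₁.1 E (ex e) 1 T₀ Y ∧ Function.Surjective (rP.comp φ)} with hV
  set U : Set (Gal(QBar/K) →* P) := ⋃ φ₁ : R, ⋃ e : E → P, V φ₁ e with hU
  have hfin : ∀ (φ₁ : R) (e : E → P), (V φ₁ e).Finite := fun φ₁ e =>
    (hS φ₁ E (ex e) hE 1 T₀ Y).1.subset fun φ hφ => hφ.1
  have hUf : U.Finite := Set.finite_iUnion fun φ₁ => Set.finite_iUnion fun e => hfin φ₁ e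
  have hsub : {φ | φ ∈ PU L c E Y ∧ Rch L c E 1 ε Y φ} ⊆ U := by
    intro φ hφ
    obtain ⟨φ₁, h2, h3⟩ := hR2 φ hφ.1.1
    refine Set.mem_iUnion.2 ⟨⟨φ₁, h2⟩, Set.mem_iUnion.2 ⟨fun v => φ (L.t v), ?_⟩⟩
    refine ⟨pu_syf hp hζ L Q hP c rP.ker E 1 ε Y φ φ₁ hφ (tqt_teq _ h3) _ fun v hv => ?_,
      hr.comp hφ.1.2.1⟩
    rw [hex]
    beta_reduce
    rw [dif_pos hv]
  refine ⟨hUf.subset hsub, ?_⟩
  have hone : ∀ (φ₁ : R) (e : E → P), ((V φ₁ e).ncard : ℝ) ≤ Cs φ₁ * W := by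
    intro φ₁ e
    have h2 := hYs φ₁ Y (g2 φ₁) 1 le_rfl E (ex e) hE hn'
    obtain ⟨hf, h3⟩ := hS φ₁ E (ex e) hE 1 T₀ Y
    rw [h3, w1_sum, norm_mul, Complex.norm_natCast, Complex.norm_natCast] at h2
    have h4 : (1 : ℝ) ≤ κ φ₁ := by exact_mod_cast hκ φ₁
    rw [hW, ← mul_assoc]
    refine le_trans ?_ h2
    exact le_mul_of_one_le_left (Nat.cast_nonneg _) h4
  have hcard : (Nat.card (E → P) : ℝ) = (Nat.card P : ℝ) ^ E.card := by
    rw [Nat.card_fun, Nat.card_eq_fintype_card (α := E), Fintype.card_coe]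
    push_cast
    rfl
  have h5 : ({φ | φ ∈ PU L c E Y ∧ Rch L c E 1 ε Y φ}.ncard : ℝ) ≤
      (Nat.card P : ℝ) ^ E.card * (C₁ * W) := by
    have h6 : (U.ncard : ℝ) ≤ ∑ φ₁ : R, ∑ e : E → P, ((V φ₁ e).ncard : ℝ) := by
      have h7 : U.ncard ≤ ∑ φ₁ : R, ∑ e : E → P, (V φ₁ e).ncard := by
        refine (Set.ncard_iUnion_le_of_fintype _).trans ?_
        exact Finset.sum_le_sum fun φ₁ _ => Set.ncard_iUnion_le_of_fintype _
      exact_mod_cast h7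
    refine le_trans (by exact_mod_cast Set.ncard_le_ncard hsub hUf) (h6.trans ?_)
    calc _ ≤ ∑ φ₁ : R, ∑ _e : E → P, Cs φ₁ * W :=
          Finset.sum_le_sum fun φ₁ _ => Finset.sum_le_sum fun e _ => hone φ₁ e
      _ = _ := by
          rw [hC₁, Finset.sum_mul, Finset.mul_sum]
          refine Finset.sum_congr rfl fun φ₁ _ => ?_
          rw [Finset.sum_const, Finset.card_univ, nsmul_eq_mul, ← hcard,
            Nat.card_eq_fintype_card (α := E → P)]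
  refine h5.trans ?_
  have h8 : (Nat.card P : ℝ) ^ E.card ≤ C ^ E.card :=
    pow_le_pow_left₀ (Nat.cast_nonneg _) (le_trans (le_max_right _ _) (le_max_left _ _)) _
  have h9 : C₁ ≤ C := le_trans (le_max_left _ _) (le_max_left _ _)
  have h10 : 0 ≤ C := le_trans zero_le_one (le_max_right _ _)
  calc (Nat.card P : ℝ) ^ E.card * (C₁ * W) ≤ C ^ E.card * (C * W) :=
        mul_le_mul h8 (mul_le_mul_of_nonneg_right h9 g7.le) (mul_nonneg hC₁0 g7.le)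
          (pow_nonneg h10 _)
    _ = C ^ (E.card + 1) * nr E ^ η * Y * Real.log Y ^ (N - 1) := by
        rw [hW, pow_succ]
        ring

end got

section fin

private theorem card_ser {p N : ℕ} {P : Type} [Group P] [Finite P] (c : CL p N P) {r : ℕ}
    {B : ℕ → Subgroup P} (h0 : B 0 = ⊥) (hs : ∀ i, i < r → B i ≤ B (i + 1) ∧
      Nat.card (B (i + 1)) = p * Nat.card (B i) ∧ ∃ j, c.g j ∈ B (i + 1) ∧ c.g j ∉ B i) :
    ∀ i, i ≤ r → Nat.card (B i) = p ^ i := by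
  intro i
  induction i with
  | zero =>
    intro _
    rw [h0, Subgroup.card_bot, pow_zero]
  | succ i ih =>
    intro hi
    rw [(hs i (by omega)).2.1, ih (by omega), pow_succ, mul_comm]

/-- AP2 from the black boxes -/
theorem apst2_of {p : ℕ} (hp : p.Prime) (hX : BX p) : APst2 p := by
  intro P _ _ hPg
  have : Fintype P := Fintype.ofFinite P
  have : Fact p.Prime := ⟨hp⟩
  obtain ⟨k₀, hk₀⟩ := IsPGroup.iff_card.1 hPg
  have hP : ∀ x : P, x ^ p ^ k₀ = 1 := fun x => by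
    rw [← hk₀]
    exact pow_card_eq_one'
  have hm1 : 1 ≤ Nat.card P := Nat.card_pos
  have : NeZero (p ^ Nat.card P) := ⟨pow_ne_zero _ hp.ne_zero⟩
  obtain ⟨n₀, hn₀⟩ := hX (k₀ + 1) (Nat.card P) (Nat.le_add_left 1 k₀) hm1
  refine ⟨n₀ + k₀ + 2, fun N c T hN hcT hser K _ ζ hζ z hz hzζ D => ?_⟩
  have hN0 : NeZero N := ⟨by omega⟩
  have hM1 : MOne p K := mone_of hp (show 2 ≤ n₀ + k₀ + 2 + 1 by omega) hz
  have hz' : Zn p (n₀ + k₀ + 2 + 1) K := ⟨z, hz⟩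
  obtain ⟨r, B, hB0, hBr, hBn, hs⟩ := hser
  have hTn : T.Normal := hBr ▸ hBn r
  have hrm : r ≤ Nat.card P := by
    have h1 := card_ser c hB0 hs r le_rfl
    have h2 : Nat.card (B r) ≤ Nat.card P := Subgroup.card_le_card_group _
    rw [h1] at h2
    exact (Nat.lt_pow_self hp.one_lt).le.trans h2
  have hker : (QuotientGroup.mk' T).ker = T := QuotientGroup.ker_mk' T
  have hr : Function.Surjective (QuotientGroup.mk' T) := QuotientGroup.mk'_surjective T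
  have hcT' : ∀ i, QuotientGroup.mk' T (c.g i) = 1 := fun i =>
    (QuotientGroup.eq_one_iff _).2 (hcT i)
  have hgen : ∀ S : Subgroup P, S.Normal → (∀ i, c.g i ∈ S) → (QuotientGroup.mk' T).ker ≤ S := by
    intro S _ hS
    rw [hker, ← hBr]
    exact ser_le hp c hB0 hs hS r le_rfl
  have key : ∀ (L : LDs D.toRD0 QBar) (_ : NL (n₀ + k₀ + 2 + 1) z L) (Q : DP K QBar),
      Got L Q c (QuotientGroup.mk' T) := by
    intro L hL Q φ₁ h₁ wt hwt hwt'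
    obtain ⟨Fr⟩ := H77.PC3.exists_FR hp hζ L
    obtain ⟨hG, h2⟩ := hn₀ (n₀ + k₀ + 2) (by omega) K ζ hζ z hz hzζ D
    obtain ⟨hl1, I, hI, hF⟩ := h2 L hL Q Fr
    obtain ⟨lim, g1, g2, g3⟩ := ap2_get hp hM1 hζ le_rfl (hz'.mono hp.pos (by omega)) D hl1 hG L Q
      Fr I hI hF hP c (QuotientGroup.mk' T) hcT' hB0 (hBr.trans hker.symm) hBn hs hrm wt hwt hwt'
      φ₁ h₁
    obtain ⟨κ, hκ, h3⟩ := H55.E2.start2 (m := Nat.card P) hp hM1 hζ (hz'.mono hp.pos (by omega)) D.toRD0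
      L Q Fr I hP c (QuotientGroup.mk' T) hcT' φ₁
    exact ⟨lim, κ, _, hκ, g1, g2, g3, h3 wt hwt'⟩
  have hlr : ∀ (L : LDs D.toRD0 QBar) (Q : DP K QBar) (φ₁ : Gal(QBar/K) →* P) (Y : ℝ),
      SYT L Q c T φ₁ Y = SYT L Q c (QuotientGroup.mk' T).ker φ₁ Y := by
    intro L Q φ₁ Y
    rw [hker]
  refine ⟨⟨1, fun ε hε hε1 L hL Q _ φ₁ h₁ => ?_⟩, ⟨1, 1 / 2, fun L hL Q _ φ₀ h₀ hs0 hu => ?_⟩,
    ⟨1, fun L hL A₁ ε η hε hε1 hη => ?_⟩⟩
  · obtain ⟨l, hl⟩ := got_l hp hζ hPg D.toRD0 L Q c (QuotientGroup.mk' T) hr hgen (key L hL Q) hε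
      hε1 φ₁ h₁
    refine ⟨l, hl.congr fun Y => ?_⟩
    rw [hlr]
  · obtain ⟨c₀, h1, h2⟩ := got_p hp hζ hPg D.toRD0 L Q c (QuotientGroup.mk' T) hr hgen (key L hL Q)
      (by norm_num : (0 : ℝ) < 1 / 2) (by norm_num) φ₀ h₀ hs0 hu
    refine ⟨c₀, h1, h2.mono fun Y hY => ?_⟩
    rw [hlr]
    exact hY
  · obtain ⟨Q⟩ := exists_DP K QBar
    exact got_u hp hM1 hζ hPg D.toRD0 L Q c (QuotientGroup.mk' T) hr (key L hL Q) hε hε1 hη

/-- AP2 for odd primes -/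
theorem apst2 {p : ℕ} (hp : p.Prime) (hp2 : p ≠ 2) : APst2 p := apst2_of hp (bx_odd hp hp2)

end fin

end H86.A2
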