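import Pool.Agent.H86.A2.Fin2
import Pool.Agent.H57.G2.Fin
import Pool.Agent.H57.RN.Rec
import Pool.Agent.H57.RN.Loc

/-!
# H86-A2-BX2: the black boxes of AP2 for all primes, also `p = 2`, from `SMX p`

* `mone_of`: `-1` is a `p`-th and a `p ^ n`-th power if `K` contains the roots of unity of order `p ^ (n + 1)`.
* `prim_pkn`, `isrec_onen`, `lam_alln`: the weights of the reciprocity law are `1`, all primes.
* `bx_of`: `SMX p` implies `BX p`. `apst2_sm`: `SMX p` implies `APst2 p`.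
-/

set_option autoImplicit false
set_option linter.dupNamespace false

open scoped NumberField
open IsDedekindDomain
open scoped Classical

noncomputable section

namespace H86.A2

open H63.MA H38.ML H38.BB H38.BG H57.PC H57.BRA H57.GP H57.RQ H51.AC2 H24.RK Pool.Agent.H19.A2

section roots

variable {K : Type} [Field K] {p : ℕ}

theorem mone_of (hp : p.Prime) {n : ℕ} (hn : 1 ≤ n) {z : K}
    (hz : IsPrimitiveRoot z (p ^ (n + 1))) : MOne p K ∧ MOne (p ^ n) K := by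
  by_cases hp2 : p = 2
  · subst hp2
    have h1 : IsPrimitiveRoot (z ^ 2 ^ n) 2 := hz.pow (pow_pos (by norm_num) _) (by rw [pow_succ])
    have h2 : z ^ 2 ^ n = -1 := h1.eq_neg_one_of_two_right
    obtain ⟨k, rfl⟩ : ∃ k, n = k + 1 := ⟨n - 1, by omega⟩
    exact ⟨⟨z ^ 2 ^ k, by rw [← pow_mul, ← pow_succ, h2]⟩, ⟨z, h2⟩⟩
  · have h1 := hp.odd_of_ne_two hp2
    exact ⟨⟨-1, h1.neg_one_pow⟩, ⟨-1, (h1.pow).neg_one_pow⟩⟩

end roots

section rec

variable {K : Type} [Field K] [NumberField K] {p : ℕ}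

private theorem unitn {v : Pl K} {x : K} (h : v.valuation K (x - 1) < 1) :
    v.valuation K x = 1 := by
  have h1 := Valuation.map_one_add_of_lt (v := v.valuation K) (x := x - 1) h
  rwa [add_sub_cancel] at h1

private theorem muln {v : Pl K} {δ : WithZero (Multiplicative ℤ)} (hδ : δ ≤ 1) {x y : Kˣ}
    (hx : v.valuation K ((x : K) - 1) < δ) (hy : v.valuation K ((y : K) - 1) < δ) :
    v.valuation K (((x * y : Kˣ) : K) - 1) < δ := by
  have h1 : ((x * y : Kˣ) : K) - 1 = ((x : K) - 1) * y + ((y : K) - 1) := by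
    rw [Units.val_mul]
    ring
  rw [h1]
  refine lt_of_le_of_lt (Valuation.map_add _ _ _) (max_lt ?_ hy)
  rw [map_mul, unitn (lt_of_lt_of_le hy hδ), mul_one]
  exact hx

private theorem invn {v : Pl K} {δ : WithZero (Multiplicative ℤ)} (hδ : δ ≤ 1) {x : Kˣ}
    (hx : v.valuation K ((x : K) - 1) < δ) : v.valuation K (((x⁻¹ : Kˣ) : K) - 1) < δ := by
  have h1 := unitn (lt_of_lt_of_le hx hδ)
  have h2 : ((x⁻¹ : Kˣ) : K) - 1 = -(((x : K) - 1) * (x : K)⁻¹) := by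
    rw [Units.val_inv_eq_inv_val, sub_mul, mul_inv_cancel₀ (Units.ne_zero x), one_mul]
    ring
  rw [h2, Valuation.map_neg, map_mul, map_inv₀, h1, inv_one, mul_one]
  exact hx

private theorem pown {v : Pl K} {δ : WithZero (Multiplicative ℤ)} (hδ : δ ≤ 1) {x : Kˣ}
    (hx : v.valuation K ((x : K) - 1) < δ) (n : ℕ) :
    v.valuation K (((x ^ n : Kˣ) : K) - 1) < δ := by
  have h0 : (0 : WithZero (Multiplicative ℤ)) < δ := lt_of_le_of_lt zero_le' hx
  induction n with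
  | zero =>
    rw [pow_zero, Units.val_one, sub_self, map_zero]
    exact h0
  | succ n ih =>
    rw [pow_succ]
    exact muln hδ ih hx

private theorem pnn (v : Pl K) (n : ℕ) : v.valuation K ((p : K) ^ n) ≤ 1 := by
  have h1 : algebraMap (𝓞 K) K ((p : 𝓞 K) ^ n) = (p : K) ^ n := by
    rw [map_pow, map_natCast]
  rw [← h1]
  exact v.valuation_le_one _

theorem prim_pkn (hp : p.Prime) {c : Kˣ} (hc : Prim p c) : Pk p 1 c := by
  have hpK : (p : K) ≠ 0 := by exact_mod_cast hp.ne_zero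
  choose y hy using hc
  obtain ⟨x, hx⟩ := weak_approx (finite_above (K := K) hp.ne_zero).toFinset
    (fun v => if h : Above p v then y v h else 1) (fun v => v.valuation K ((p : K) ^ 2)) (by
      intro v _
      rw [Valuation.ne_zero_iff]
      exact pow_ne_zero 2 hpK)
  have h1 : Dp p (1 + 1) (c * (x ^ p)⁻¹) := by
    intro v hv
    have h2 := hx v ((finite_above (K := K) hp.ne_zero).mem_toFinset.2 hv)
    rw [dif_pos hv] at h2
    have h3 := invn (pnn v 2) (pown (pnn v 2) h2 p)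
    have h4 := muln (pnn v 2) (hy v hv) h3
    have e : c * (y v hv ^ p)⁻¹ * ((x * (y v hv)⁻¹) ^ p)⁻¹ = c * (x ^ p)⁻¹ := by
      rw [mul_pow, mul_inv, inv_pow, inv_inv, mul_comm ((x ^ p)⁻¹), mul_assoc,
        inv_mul_cancel_left]
    rw [e] at h4
    exact h4
  have h2 := H57.RQ.N.dpn (k := 1) hp h1
  have h3 : Pk p 1 (x ^ p) := by
    intro v _ n
    refine ⟨x, ?_⟩
    rw [pow_one, mul_inv_cancel, Units.val_one, sub_self, map_zero, zero_lt_iff,
      Valuation.ne_zero_iff]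
    exact pow_ne_zero n hpK
  have h4 := pk_mul hp h2 h3
  rwa [inv_mul_cancel_right] at h4

theorem isrec_onen (hp : p.Prime) (hm : MOne p K) {ζ : K} (hζ : IsPrimitiveRoot ζ p) :
    IsRec p ζ fun v => if Above p v then 0 else 1 := by
  refine ⟨fun v hv => if_pos hv, fun c hc x => ?_, fun c hc hn => ?_⟩
  · refine Eq.trans (finsum_congr fun v => ?_) (H57.RQ.N.ro hp K ζ hζ hm c (prim_pkn hp hc) x)
    unfold b1
    by_cases hv : Above p v
    · rw [if_pos hv, if_pos hv, zero_mul]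
    · rw [if_neg hv, if_neg hv, one_mul]
  · obtain ⟨lam, hlam⟩ := exists_rec hp hm hζ
    obtain ⟨v, h1, h2⟩ := hlam.non c hc hn
    have hv : ¬ Above p v := fun h => h1 (hlam.above v h)
    refine ⟨v, ?_, h2⟩
    have : Fact p.Prime := ⟨hp⟩
    beta_reduce
    rw [if_neg hv]
    exact one_ne_zero

theorem lam_alln {Ω : Type} [Field Ω] [Algebra K Ω] [IsAlgClosure K Ω] (hp : p.Prime)
    (hm : MOne p K) {ζ : K} (hζ : IsPrimitiveRoot ζ p) (hz : Z2 p K)
    (D : RD K p ζ) (L : LDs D.toRD0 Ω) (Q : DP K Ω) (Fr : FR L) :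
    ∀ v, v ∉ D.S0 → D.lam v = 1 := by
  intro v hv
  have h := Pool.Agent.H19.AB.lam_eq hp hm hζ hz D L Q Fr
    (isrec_onen hp hm hζ) (fun w hw => if_neg fun h => hw.1 (D.above w h)) hv
  rw [← h]
  exact if_neg fun h => hv (D.above v h)

end rec

section mono

variable {G : Type} [Group G]

theorem raw_mono {q r N : ℕ} (hq : 0 < q) (hr : 0 < r) {f : G → ℂ} (h : Raw q N f) :
    Raw (q * r) N f := by
  obtain ⟨c, H, ψ, h1, h2, h3⟩ := h
  have : NeZero q := ⟨hq.ne'⟩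
  have : NeZero (q * r) := ⟨(Nat.mul_pos hq hr).ne'⟩
  have hval : ∀ a : ZMod q, (((r * a.val : ℕ) : ZMod (q * r))).val = r * a.val := fun a => by
    rw [ZMod.val_natCast, Nat.mod_eq_of_lt]
    rw [mul_comm q r]
    exact Nat.mul_lt_mul_of_pos_left (ZMod.val_lt a) hr
  have hep : ∀ a : ZMod q, ep (q * r) ((r * a.val : ℕ) : ZMod (q * r)) = ep q a := fun a => by
    unfold ep
    rw [hval]
    congr 2
    have h5 : (r : ℂ) ≠ 0 := by exact_mod_cast hr.ne'
    push_cast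
    rw [mul_comm (r : ℂ), mul_div_mul_right _ _ h5]
  refine ⟨c, H, fun j y => ((r * (ψ j y).val : ℕ) : ZMod (q * r)), h1, fun j a ha b hb => ?_,
    fun y => ?_⟩
  · beta_reduce
    rw [h2 j a ha b hb, ZMod.val_add, ← Nat.cast_add, ← Nat.mul_add,
      ZMod.natCast_eq_natCast_iff, mul_comm q r]
    exact Nat.ModEq.mul_left' r (Nat.mod_modEq _ _)
  · rw [h3 y]
    refine Finset.sum_congr rfl fun j _ => ?_
    congr 1
    unfold th
    beta_reduce
    rw [hep]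

theorem gpr_mono {K : Type} [Field K] [NumberField K] {p : ℕ} {ζ : K} {D : RD0 K p ζ} {Ω : Type}
    [Field Ω] [Algebra K Ω] {q r : ℕ} (hq : 0 < q) (hr : 0 < r) (h : GPR D Ω (q * r)) :
    GPR D Ω q := by
  intro b C₁ A ε hε
  obtain ⟨Y₀, hY⟩ := h b C₁ A ε hε
  refine ⟨Y₀, fun Y hY0 L Fr ι I n x h1 h2 h3 G _ _ φ f h4 => ?_⟩
  refine hY Y hY0 L Fr ι I n x h1 h2 h3 G φ f fun i hi => ?_
  obtain ⟨h5, h6, ⟨f₀, h7, h8⟩, h9⟩ := h4 i hi
  exact ⟨h5, h6, ⟨f₀, raw_mono hq hr h7, h8⟩, h9⟩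

end mono

section bx

/-- the black boxes of AP2, all primes -/
theorem bx_of {p : ℕ} (hp : p.Prime) (hsm : H57.GP.Q.E.SMX p) : BX p := by
  intro k m hk hm
  refine ⟨max k m + m + 1, fun n hn K _ ζ hζ z hz hzζ D _ => ?_⟩
  obtain ⟨N, rfl⟩ : ∃ N, n = N + 1 := ⟨n - 1, by omega⟩
  have h1 : k < N + 1 := (Nat.lt_of_le_of_lt (le_max_left k m) (by omega))
  have hz' : Zn p (N + 1 + 1) K := ⟨z, hz⟩
  obtain ⟨z1, hz1⟩ := hz'.mono hp.pos (show k + 1 ≤ N + 1 + 1 by omega)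
  obtain ⟨z2, hz2⟩ := hz'.mono hp.pos (show k + 1 + 1 ≤ N + 1 + 1 by omega)
  obtain ⟨hm1, hm2⟩ := mone_of hp (Nat.le_add_left 1 k) hz2
  obtain ⟨-, hm3⟩ := mone_of hp (Nat.le_add_left 1 N) hz
  have hG : GPR D.toRD0 QBar (p ^ k * p) := by
    rw [← pow_succ]
    exact H57.GP.Q.E.gprx hsm hp (by omega) hζ hz1 ⟨hm1, hm2⟩ D.toRD0
  refine ⟨gpr_mono (pow_pos hp.pos _) hp.pos hG, fun L hL Q Fr => ?_⟩
  have hzp : IsPrimitiveRoot (z ^ p) (p ^ (N + 1)) := hz.pow (pow_pos hp.pos _) (by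
    rw [pow_succ, mul_comm])
  have hzpz : (z ^ p) ^ p ^ N = ζ := by rw [← pow_mul, ← pow_succ', hzζ]
  have hL' : NL (N + 1) (z ^ p) L := by
    intro v hv
    obtain ⟨w, h2, h3⟩ := hL v hv
    refine ⟨w ^ p, ?_, ?_⟩
    · rw [← pow_mul, ← pow_succ', h2]
    · rw [map_pow, h3, mul_pow, map_pow]
  obtain ⟨I, hI⟩ := exists_fnrn hp ⟨hm1, hm3⟩ hm1 hζ hzp hzpz hL' Q Fr
    (show max k m + m ≤ N + 1 by omega)
  exact ⟨lam_alln hp hm1 hζ (hz'.mono hp.pos (by omega)) D L Q Fr, I, hI,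
    H82.SF.ffR hk hm hp hm1 hζ (hz'.mono hp.pos (by omega)) Q Fr hI⟩

theorem apst2_sm {p : ℕ} (hp : p.Prime) (hsm : H57.GP.Q.E.SMX p) : APst2 p :=
  apst2_of hp (bx_of hp hsm)

end bx

end H86.A2
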