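import Pool.Agent.H19.NF.Nf
import Pool.Agent.H77.PC3.CDef

/-!
# H86-A2-SER: group theory of the induction of AP2 (main term of Malle's conjecture, all classes, stage 2; MP_b39724_nt, think 1616)

* `cen_ord`: a normal subgroup of order `p` of a finite `p`-group is central.
* `ce_ser`: `q : P →* G` onto with kernel `B`, `B ≤ B'` normal with `#B' = p #B`, `g ∈ B'`, `g ∉ B`, `g ^ p = 1`: a central extension structure `CE p G G'` with `E.i 1 = q g` and
  `(E.pi ∘ q).ker = B'`.
* `ser_gen`: if `S` contains `B` and `g` then it contains `B'`.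
-/

set_option autoImplicit false
set_option linter.dupNamespace false

open scoped Classical

noncomputable section

namespace H86.A2

open Pool.Agent.H19.NF

theorem cen_ord {p : ℕ} (hp : p.Prime) {G : Type} [Group G] [Finite G] (hG : IsPGroup p G)
    (N : Subgroup G) [hN : N.Normal] (hc : Nat.card N = p) : ∀ n ∈ N, ∀ x : G, n * x = x * n := by
  have : Fact p.Prime := ⟨hp⟩
  have hG' : IsPGroup p (ConjAct G) := hG
  have h1 : (1 : N) ∈ MulAction.fixedPoints (ConjAct G) N := fun g => smul_one g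
  obtain ⟨b, hb, hb1⟩ := hG'.exists_fixed_point_of_prime_dvd_card_of_fixed_point N
    (by rw [hc]) h1
  have hb2 : ∀ x : G, x * (b : G) * x⁻¹ = b := by
    intro x
    have h := hb (ConjAct.toConjAct x)
    have h2 := congrArg (Subtype.val) h
    rwa [ConjAct.Subgroup.val_conj_smul, ConjAct.smul_def, ConjAct.ofConjAct_toConjAct] at h2
  have hz : Subgroup.zpowers b = ⊤ := by
    have : Fact (Nat.card N).Prime := ⟨by rw [hc]; exact hp⟩
    rcases (Subgroup.zpowers b).eq_bot_or_eq_top_of_prime_card with h | h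
    · exact absurd (Subgroup.zpowers_eq_bot.1 h).symm hb1
    · exact h
  intro n hn x
  obtain ⟨k, hk⟩ := Subgroup.mem_zpowers_iff.1 (hz ▸ Subgroup.mem_top (⟨n, hn⟩ : N))
  have h3 : n = (b : G) ^ k := by
    have := congrArg Subtype.val hk
    rw [Subgroup.coe_zpow] at this
    exact this.symm
  have h4 : Commute x (b : G) := by
    show x * b = b * x
    rw [← mul_inv_eq_iff_eq_mul]
    exact hb2 x
  rw [h3]
  exact ((h4.zpow_right k).eq).symm

theorem ser_gen {p : ℕ} (hp : p.Prime) {P : Type} [Group P] [Finite P] {B B' S : Subgroup P}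
    (hBB : B ≤ B') (hcard : Nat.card B' = p * Nat.card B) {g : P} (hg' : g ∈ B') (hg : g ∉ B)
    (hBS : B ≤ S) (hgS : g ∈ S) : B' ≤ S := by
  have h1 : B ≤ B' ⊓ S := le_inf hBB hBS
  obtain ⟨k, hk⟩ := Subgroup.card_dvd_of_le h1
  obtain ⟨k', hk'⟩ := Subgroup.card_dvd_of_le (inf_le_left : B' ⊓ S ≤ B')
  have hB0 : 0 < Nat.card B := Nat.card_pos
  have h2 : k * k' = p := by
    rw [hcard, hk, mul_assoc, mul_comm p] at hk'
    exact (Nat.eq_of_mul_eq_mul_left hB0 hk').symm
  have h3 : k ≠ 1 := by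
    rintro rfl
    rw [mul_one] at hk
    have h4 : B = B' ⊓ S := Subgroup.eq_of_le_of_card_ge h1 (by rw [hk])
    exact hg (h4 ▸ (Subgroup.mem_inf.2 ⟨hg', hgS⟩))
  have h4 : k' = 1 := by
    rcases (Nat.dvd_prime hp).1 (Dvd.intro k' h2) with h | h
    · exact absurd h h3
    · rw [h] at h2
      exact Nat.eq_of_mul_eq_mul_left hp.pos (by rw [h2, mul_one])
  rw [h4, mul_one] at hk'
  have h5 : B' ⊓ S = B' := Subgroup.eq_of_le_of_card_ge inf_le_left (by rw [hk'])
  rw [← h5]
  exact inf_le_right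

theorem ce_ser {p : ℕ} (hp : p.Prime) {P G Qg : Type} [Group P] [Finite P] [Group G] [Finite G]
    [Group Qg] (hP : IsPGroup p P) (q : P →* G) (hq : Function.Surjective q) {B B' : Subgroup P}
    (hn : B'.Normal) (hB : q.ker = B) (hBB : B ≤ B') (hcard : Nat.card B' = p * Nat.card B)
    {g : P} (hg : g ^ p = 1) (hg' : g ∈ B') (hgB : g ∉ B) (rP : P →* Qg) (hr' : B' ≤ rP.ker)
    (rG : G →* Qg) (hr : rG.comp q = rP) :
    ∃ (G' : Type) (_ : Group G') (_ : Fintype G') (E : CE p G G') (rG' : G' →* Qg),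
      rG'.comp E.pi = rG ∧ q g = E.i 1 ∧ (E.pi.comp q).ker = B' := by
  have : Fact p.Prime := ⟨hp⟩
  have : Fact (1 < p) := ⟨hp.one_lt⟩
  have : NeZero p := ⟨hp.ne_zero⟩
  set N : Subgroup G := B'.map q with hN
  have hNn : N.Normal := hn.map q hq
  have hG : IsPGroup p G := hP.of_surjective q hq
  have hNc : Nat.card N = p := by
    have h1 : Nat.card N * Nat.card B = Nat.card B' := by
      have h2 := Subgroup.card_mul_index (q.subgroupMap B').ker
      rw [Subgroup.index_ker] at h2
      have h3 : Nat.card (q.subgroupMap B').ker = Nat.card B := by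
        have h4 : ((q.subgroupMap B').ker).map B'.subtype = B := by
          ext x
          constructor
          · rintro ⟨y, hy, rfl⟩
            rw [← hB]
            have h5 : q.subgroupMap B' y = 1 := hy
            exact congrArg Subtype.val h5
          · intro hx
            refine ⟨⟨x, hBB hx⟩, ?_, rfl⟩
            have h5 : q x = 1 := by
              rw [← MonoidHom.mem_ker, hB]
              exact hx
            exact Subtype.ext h5
        rw [← h4]
        exact Nat.card_congr ((q.subgroupMap B').ker.equivMapOfInjective _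
          B'.subtype_injective).toEquiv
      have h6 : Nat.card (q.subgroupMap B').range = Nat.card N := by
        rw [MonoidHom.range_eq_top.2 (q.subgroupMap_surjective B'), Subgroup.card_top]
      rw [h3, h6] at h2
      rw [mul_comm]
      exact h2
    rw [hcard] at h1
    exact Nat.eq_of_mul_eq_mul_right Nat.card_pos h1
  have hcen := cen_ord hp hG N hNc
  have hqg : q g ∈ N := ⟨g, hg', rfl⟩
  have hqg1 : q g ≠ 1 := fun h => hgB (by rw [← hB]; exact h)
  have hqp : q g ^ p = 1 := by rw [← map_pow, hg, map_one]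
  have hz : ∀ n ∈ N, ∃ a : ZMod p, n = q g ^ a.val := by
    intro n hn
    have h1 : Subgroup.zpowers (⟨q g, hqg⟩ : N) = ⊤ := by
      have : Fact (Nat.card N).Prime := ⟨by rw [hNc]; exact hp⟩
      rcases (Subgroup.zpowers (⟨q g, hqg⟩ : N)).eq_bot_or_eq_top_of_prime_card with h | h
      · exact absurd (congrArg Subtype.val (Subgroup.zpowers_eq_bot.1 h)) hqg1
      · exact h
    have h2 : (⟨n, hn⟩ : N) ∈ Subgroup.zpowers (⟨q g, hqg⟩ : N) := h1 ▸ Subgroup.mem_top _
    obtain ⟨k, hk⟩ := (mem_powers_iff_mem_zpowers.2 h2)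
    have hk' : q g ^ k = n := by
      have := congrArg Subtype.val hk
      simpa using this
    refine ⟨(k : ZMod p), ?_⟩
    rw [ZMod.val_natCast, ← pow_eq_pow_mod k hqp, hk']
  have hs : ∀ x : G ⧸ N, ∃ y : G, QuotientGroup.mk' N y = x ∧ (x = 1 → y = 1) := by
    intro x
    by_cases hx : x = 1
    · exact ⟨1, by rw [map_one, hx], fun _ => rfl⟩
    · obtain ⟨y, hy⟩ := QuotientGroup.mk'_surjective N x
      exact ⟨y, hy, fun h' => absurd h' hx⟩
  choose sc hs1 hs2 using hs
  have hd : ∀ x : G, ∃ a : ZMod p, x = q g ^ a.val * sc (QuotientGroup.mk' N x) := by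
    intro x
    have h1 : QuotientGroup.mk' N (x * (sc (QuotientGroup.mk' N x))⁻¹) = 1 := by
      rw [map_mul, map_inv, hs1, mul_inv_cancel]
    obtain ⟨a, ha⟩ := hz _ ((QuotientGroup.eq_one_iff _).1 h1)
    exact ⟨a, by rw [← ha, inv_mul_cancel_right]⟩
  choose et hd using hd
  have hpi : ∀ a : ZMod p, QuotientGroup.mk' N (q g ^ a.val) = 1 := fun a =>
    (QuotientGroup.eq_one_iff _).2 (N.pow_mem hqg _)
  have hadd : ∀ a b : ZMod p, q g ^ (a + b).val = q g ^ a.val * q g ^ b.val := by
    intro a b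
    rw [ZMod.val_add, ← pow_eq_pow_mod _ hqp, pow_add]
  have hinj : ∀ a b : ZMod p, q g ^ a.val = q g ^ b.val → a = b := by
    intro a b hab
    have ho : orderOf (q g) = p := orderOf_eq_prime hqp hqg1
    have h1 := pow_inj_mod.1 hab
    rw [ho, Nat.mod_eq_of_lt (ZMod.val_lt a), Nat.mod_eq_of_lt (ZMod.val_lt b)] at h1
    exact ZMod.val_injective p h1
  have hle : N ≤ rG.ker := by
    rintro _ ⟨x, hx, rfl⟩
    have h1 := hr' hx
    rw [← hr] at h1
    exact h1
  refine ⟨G ⧸ N, inferInstance, Fintype.ofFinite _, {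
    pi := QuotientGroup.mk' N
    i := fun a => q g ^ a.val
    s := sc
    et := et
    i_add := hadd
    cent := fun a x => hcen _ (N.pow_mem hqg _) x
    pi_i := hpi
    pi_s := hs1
    s_one := hs2 1 rfl
    dec := hd
    et_i := fun a x => ?_ }, QuotientGroup.lift N rG hle, ?_, ?_, ?_⟩
  · have h1 := hd (q g ^ a.val * x)
    have h2 := hd x
    rw [map_mul, hpi, one_mul] at h1
    apply hinj
    apply mul_right_cancel (b := sc (QuotientGroup.mk' N x))
    rw [← h1, hadd, mul_assoc, ← h2]
  · ext x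
    rfl
  · show q g = q g ^ (1 : ZMod p).val
    rw [ZMod.val_one, pow_one]
  · ext x
    rw [MonoidHom.mem_ker, MonoidHom.comp_apply]
    show (QuotientGroup.mk' N) (q x) = 1 ↔ _
    rw [QuotientGroup.mk'_apply, QuotientGroup.eq_one_iff]
    constructor
    · rintro ⟨y, hy, hyx⟩
      have h1 : y⁻¹ * x ∈ B := by
        rw [← hB, MonoidHom.mem_ker, map_mul, map_inv, hyx, inv_mul_cancel]
      have h2 := B'.mul_mem hy (hBB h1)
      rwa [mul_inv_cancel_left] at h2
    · intro hx
      exact ⟨x, hx, rfl⟩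

end H86.A2
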