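import Pool.Agent.H19.A2.Stf2
import Pool.Agent.H1.EN2.En2
import Pool.Agent.H86.A2.Gen
import Pool.Agent.H86.A2.Ser
import Pool.Agent.H86.A2.Syf
import Pool.Agent.H88.E2.End

/-!
# H86-A2-IND2: the induction of AP2 (main term of Malle's conjecture, all classes, stage 2; MP_b39724_nt, think 1616)

* `end2`: the end of the induction (`rG` injective). `ap2_ind`: every state on a quotient `P / B i` of the series has an asymptotic formula and an upper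
  bound; under `Ps` the constant is `≥ 0`, and `> 0` for `(0, 0)`. `ap2_get`: the case `q = id`, `b = 0`, `w = 0`.
-/

set_option autoImplicit false
set_option linter.dupNamespace false

open scoped NumberField ComplexConjugate
open IsDedekindDomain Filter Topology
open scoped Classical

noncomputable section

namespace H86.A2

open H63.MA H38.ML H38.BB H38.BG H57.PC H57.BRA H57.GP H77.PC3 H77.WD Pool.Agent.H19.NF
  Pool.Agent.H19.AB H35.CF H86.AP H51.PF H24.RK Pool.Agent.H19.A2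

/-- the series generates -/
theorem ser_le {p N : ℕ} (hp : p.Prime) {P : Type} [Group P] [Finite P] (c : CL p N P) {r : ℕ}
    {B : ℕ → Subgroup P} (h0 : B 0 = ⊥) (hs : ∀ i, i < r → B i ≤ B (i + 1) ∧
      Nat.card (B (i + 1)) = p * Nat.card (B i) ∧ ∃ j, c.g j ∈ B (i + 1) ∧ c.g j ∉ B i)
    {S : Subgroup P} (hS : ∀ i, c.g i ∈ S) : ∀ i, i ≤ r → B i ≤ S := by
  intro i
  induction i with
  | zero =>
    intro _
    rw [h0]
    exact bot_le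
  | succ i ih =>
    intro hi
    obtain ⟨h1, h2, j, h3, h4⟩ := hs i hi
    exact ser_gen hp h1 h2 h3 h4 (ih (by omega)) (hS j)

theorem ser_mono {p N : ℕ} {P : Type} [Group P] (c : CL p N P) {r : ℕ}
    {B : ℕ → Subgroup P} (hs : ∀ i, i < r → B i ≤ B (i + 1) ∧
      Nat.card (B (i + 1)) = p * Nat.card (B i) ∧ ∃ j, c.g j ∈ B (i + 1) ∧ c.g j ∉ B i)
    (n : ℕ) : ∀ i, i + n = r → B i ≤ B r := by
  induction n with
  | zero =>
    intro i hi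
    rw [add_zero] at hi
    rw [hi]
  | succ n ih =>
    intro i hi
    exact (hs i (by omega)).1.trans (ih (i + 1) (by omega))

section main

variable {p m N : ℕ} [NeZero N] {K : IntermediateField ℚ QBar} [NumberField K] {ζ : K}

/-- the end of the induction -/
theorem end2 [NeZero (p ^ m)] {k k₀ : ℕ} (hp : p.Prime) (hM1 : MOne p K)
    (hζ : IsPrimitiveRoot ζ p) (hk₀ : k₀ + 1 ≤ k) (hz : Zn p (k + 1) K) (D : RD K p ζ)
    (hG : GPR D.toRD0 QBar (p ^ k)) (L : LDs D.toRD0 QBar) (Q : DP K QBar) (Fr : FR L)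
    (I : ((Gal(QBar/K) → Gal(QBar/K) → Gal(QBar/K) → ZMod (p ^ m)) ×
      (Pl K → Gal(QBar/K) → Gal(QBar/K) → ZMod (p ^ m))) →+ AddCircle (1 : ℝ))
    (hI : FnR p k m D.toRD0 L Q Fr I)
    {P : Type} [Group P] [Fintype P] (hP : ∀ x : P, x ^ p ^ k₀ = 1) (c : CL p N P)
    {Qg : Type} [Group Qg] (rP : P →* Qg) (hcT : ∀ i, rP (c.g i) = 1)
    (hgen : ∀ S : Subgroup P, S.Normal → (∀ i, c.g i ∈ S) → rP.ker ≤ S)
    (wt : (Gal(QBar/K) →* Qg) → ℂ) (hwt : ∀ ψ, ‖wt ψ‖ ≤ 1)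
    (hwt' : ∀ ψ, wt ψ ≠ 0 → Function.Surjective ψ)
    (φ₁ : Gal(QBar/K) →* P) (h₁ : FT φ₁)
    {G : Type} [Group G] [Fintype G] (q : P →* G) (hq : Function.Surjective q)
    (rG : G →* Qg) (hr : rG.comp q = rP) (hinj : Function.Injective rG) {l : ℕ}
    (b : P → P → ZMod (p ^ m)) (w : G → G → G → ZMod (p ^ m)) (hbw : Sta p m l q b w) :
    ∃ lim : ℂ, Asy2 c D.toRD0 (BB2 L Q Fr I rP rG wt φ₁ q b w) lim ∧
      Upp2 c D.toRD0 (BB2 L Q Fr I rP rG wt φ₁ q b w) ∧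
      (Ps L rP wt φ₁ → ∃ s : ℝ, lim = s ∧ 0 ≤ s ∧ (b = 0 → w = 0 → 0 < s)) :=
  H88.E2.end2 hp hM1 hζ (by omega) D.toRD0 hG L Q Fr I hI hP c rP hcT wt hwt hwt' φ₁ h₁ q hq rG
    hr hinj b w hbw

/-- the induction -/
theorem ap2_ind [NeZero (p ^ m)] {k k₀ : ℕ} (hp : p.Prime) (hM1 : MOne p K)
    (hζ : IsPrimitiveRoot ζ p) (hk₀ : k₀ + 1 ≤ k) (hz : Zn p (k + 1) K) (D : RD K p ζ)
    (hl1 : ∀ v, v ∉ D.S0 → D.lam v = 1) (hG : GPR D.toRD0 QBar (p ^ k))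
    (L : LDs D.toRD0 QBar) (Q : DP K QBar) (Fr : FR L)
    (I : ((Gal(QBar/K) → Gal(QBar/K) → Gal(QBar/K) → ZMod (p ^ m)) ×
      (Pl K → Gal(QBar/K) → Gal(QBar/K) → ZMod (p ^ m))) →+ AddCircle (1 : ℝ))
    (hI : FnR p k m D.toRD0 L Q Fr I) (hF : FF p k m D.toRD0 L Q Fr I)
    {P : Type} [Group P] [Fintype P] (hP : ∀ x : P, x ^ p ^ k₀ = 1) (c : CL p N P)
    {Qg : Type} [Group Qg] (rP : P →* Qg) (hcT : ∀ i, rP (c.g i) = 1)
    {r : ℕ} {B : ℕ → Subgroup P} (hB0 : B 0 = ⊥) (hBr : B r = rP.ker)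
    (hBn : ∀ i, (B i).Normal) (hser : ∀ i, i < r → B i ≤ B (i + 1) ∧
      Nat.card (B (i + 1)) = p * Nat.card (B i) ∧ ∃ j, c.g j ∈ B (i + 1) ∧ c.g j ∉ B i)
    (wt : (Gal(QBar/K) →* Qg) → ℂ) (hwt : ∀ ψ, ‖wt ψ‖ ≤ 1)
    (hwt' : ∀ ψ, wt ψ ≠ 0 → Function.Surjective ψ)
    (φ₁ : Gal(QBar/K) →* P) (h₁ : FT φ₁) (n : ℕ) :
    ∀ i, i + n = r → ∀ (G : Type) [Group G] [Fintype G] (q : P →* G),
      Function.Surjective q → q.ker = B i → ∀ rG : G →* Qg, rG.comp q = rP →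
      ∀ l : ℕ, l + n ≤ m → ∀ (b : P → P → ZMod (p ^ m)) (w : G → G → G → ZMod (p ^ m)),
      Sta p m l q b w →
      ∃ lim : ℂ, Asy2 c D.toRD0 (BB2 L Q Fr I rP rG wt φ₁ q b w) lim ∧
        Upp2 c D.toRD0 (BB2 L Q Fr I rP rG wt φ₁ q b w) ∧
        (Ps L rP wt φ₁ → ∃ s : ℝ, lim = s ∧ 0 ≤ s ∧ (b = 0 → w = 0 → 0 < s)) := by
  have hPg : IsPGroup p P := fun x => ⟨k₀, hP x⟩
  have hgen : ∀ S : Subgroup P, S.Normal → (∀ i, c.g i ∈ S) → rP.ker ≤ S := by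
    intro S _ hS
    rw [← hBr]
    exact ser_le hp c hB0 hser hS r le_rfl
  induction n with
  | zero =>
    intro i hi G _ _ q hq hqB rG hr l _ b w hbw
    rw [add_zero] at hi
    have hinj : Function.Injective rG := by
      rw [injective_iff_map_eq_one]
      intro x hx
      obtain ⟨y, rfl⟩ := hq x
      have h1 : y ∈ rP.ker := by
        rw [MonoidHom.mem_ker, ← hr]
        exact hx
      rw [← hBr, ← hi, ← hqB] at h1
      exact h1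
    exact end2 hp hM1 hζ hk₀ hz D hG L Q Fr I hI hP c rP hcT hgen wt hwt hwt' φ₁ h₁ q hq rG hr
      hinj b w hbw
  | succ n ih =>
    intro i hi G _ _ q hq hqB rG hr l hl b w hbw
    obtain ⟨h1, h2, j, h3, h4⟩ := hser i (by omega)
    have hle : B (i + 1) ≤ rP.ker := by
      rw [← hBr]
      exact ser_mono c hser n (i + 1) (by omega)
    obtain ⟨G', _, _, E, rG', hr', hE, hker⟩ := ce_ser hp hPg q hq (hBn (i + 1)) hqB h1 h2
      (c.pow j) h3 h4 rP hle rG hr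
    obtain ⟨n', κ, bs, ws, hst, hpos, hzero, hmn⟩ := step2_pf hp hM1 hζ hk₀ hz D hl1 L Q Fr I hI
      hF hP c rP hcT hgen wt hwt hwt' φ₁ h₁ q hq rG hr E rG' hr' j hE (by omega : l + 1 ≤ m) b w
      hbw
    have hsm := H1.EN2.eng2 hp hζ D.toRD0 hG L Fr c j _ hmn
    have hpis : Function.Surjective E.pi := fun h => ⟨E.s h, E.pi_s h⟩
    have hind := fun i' => ih (i + 1) (by omega) G' (E.pi.comp q) (hpis.comp hq) hker rG'
      (by rw [← MonoidHom.comp_assoc, hr', hr]) (l + 1) (by omega) (bs i') (ws i') (hst i')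
    choose ls g1 g2 g3 using hind
    refine ⟨_, asy2_lin (sm_asy2 hsm) g1, upp2_lin (sm_upp2 hsm) g2, fun hps => ?_⟩
    choose rs hr1 hr2 hr3 using fun i' => g3 i' hps
    refine ⟨∑ i', κ i' * rs i', ?_, ?_, fun hb hw => ?_⟩
    · push_cast
      exact Finset.sum_congr rfl fun i' _ => by rw [hr1 i']
    · exact Finset.sum_nonneg fun i' _ => mul_nonneg (hpos i').le (hr2 i')
    · obtain ⟨i', hi1, hi2⟩ := hzero hb hw
      exact Finset.sum_pos' (fun i' _ => mul_nonneg (hpos i').le (hr2 i'))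
        ⟨i', Finset.mem_univ i', mul_pos (hpos i') (hr3 i' hi1 hi2)⟩

/-- the case of the zero state -/
theorem ap2_get [NeZero (p ^ m)] {k k₀ : ℕ} (hp : p.Prime) (hM1 : MOne p K)
    (hζ : IsPrimitiveRoot ζ p) (hk₀ : k₀ + 1 ≤ k) (hz : Zn p (k + 1) K) (D : RD K p ζ)
    (hl1 : ∀ v, v ∉ D.S0 → D.lam v = 1) (hG : GPR D.toRD0 QBar (p ^ k))
    (L : LDs D.toRD0 QBar) (Q : DP K QBar) (Fr : FR L)
    (I : ((Gal(QBar/K) → Gal(QBar/K) → Gal(QBar/K) → ZMod (p ^ m)) ×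
      (Pl K → Gal(QBar/K) → Gal(QBar/K) → ZMod (p ^ m))) →+ AddCircle (1 : ℝ))
    (hI : FnR p k m D.toRD0 L Q Fr I) (hF : FF p k m D.toRD0 L Q Fr I)
    {P : Type} [Group P] [Fintype P] (hP : ∀ x : P, x ^ p ^ k₀ = 1) (c : CL p N P)
    {Qg : Type} [Group Qg] (rP : P →* Qg) (hcT : ∀ i, rP (c.g i) = 1)
    {r : ℕ} {B : ℕ → Subgroup P} (hB0 : B 0 = ⊥) (hBr : B r = rP.ker)
    (hBn : ∀ i, (B i).Normal) (hser : ∀ i, i < r → B i ≤ B (i + 1) ∧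
      Nat.card (B (i + 1)) = p * Nat.card (B i) ∧ ∃ j, c.g j ∈ B (i + 1) ∧ c.g j ∉ B i)
    (hrm : r ≤ m) (wt : (Gal(QBar/K) →* Qg) → ℂ) (hwt : ∀ ψ, ‖wt ψ‖ ≤ 1)
    (hwt' : ∀ ψ, wt ψ ≠ 0 → Function.Surjective ψ)
    (φ₁ : Gal(QBar/K) →* P) (h₁ : FT φ₁) :
    ∃ lim : ℂ, Asy2 c D.toRD0 (BB2 L Q Fr I rP rP wt φ₁ (MonoidHom.id P) 0 0) lim ∧
      Upp2 c D.toRD0 (BB2 L Q Fr I rP rP wt φ₁ (MonoidHom.id P) 0 0) ∧
      (Ps L rP wt φ₁ → ∃ s : ℝ, lim = s ∧ 0 < s) := by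
  have hst : Sta p m 0 (MonoidHom.id P) (0 : P → P → ZMod (p ^ m))
      (0 : P → P → P → ZMod (p ^ m)) := by
    constructor
    · exact ⟨fun x => rfl, fun x => rfl⟩
    · exact ⟨fun x y => rfl, fun x y => rfl, fun x y => rfl⟩
    · intro x y z
      simp [d2]
    · intro x y z t
      simp [d3]
    · intro x y
      simp
    · intro x y z
      simp
  obtain ⟨lim, h1, h2, h3⟩ := ap2_ind hp hM1 hζ hk₀ hz D hl1 hG L Q Fr I hI hF hP c rP hcT hB0 hBr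
    hBn hser wt hwt hwt' φ₁ h₁ r 0 (by omega) P (MonoidHom.id P) Function.surjective_id (by
      rw [hB0]
      exact (MonoidHom.ker_eq_bot_iff _).2 Function.injective_id) rP (MonoidHom.comp_id rP) 0
    (by omega) 0 0 hst
  refine ⟨lim, h1, h2, fun h => ?_⟩
  obtain ⟨s, hs1, -, hs2⟩ := h3 h
  exact ⟨s, hs1, hs2 rfl rfl⟩

end main

end H86.A2
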